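import Pool.Agent.H63.WT.TC
import Pool.Agent.H70.N6.LR

/-!
# The relaxed local lemma: targets, splitting, signs, real numbers, the final statements
-/

set_option autoImplicit false

open Polynomial Matrix Pool.Agent.H32.QC

namespace Pool.Agent.H63.WT

/-! ### L: splitting and signs -/

/-- L1: the matrix of the constant, any field -/
def T_PHI : Prop := ∀ (F : Type) [Field F], (2 : F) ≠ 0 → ∀ P1 P2 D : F[X], P1.Monic →
  IsCoprime P1 P2 → IsCoprime P1 D → SN (Phi P1 P2 D) ∧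
  cls (Phi P1 P2 D) = S P1 (D * P2) - S P1 P2 ∧
  (IsSquare (P1.resultant D) → IsSquare ((-1) ^ P1.natDegree * (Phi P1 P2 D).det) ∧
    I2 (cls (Phi P1 P2 D)))

/-- L2: forms in seven variables: split iff the class is right -/
def T_SP7 : Prop := ∀ (E : Type) [Field E], (2 : E) ≠ 0 → ∀ (P D : E[X]) (t : E), P.Monic →
  P.natDegree = 7 → IsCoprime P D → IsSquare (nn P D) → eval t P ≠ 0 →
  (Pool.Agent.H34.N6.TI (Pool.Agent.H34.N6.ft P D t) 3 ↔
    S P (D * (X - C t)) = S P (X - C t))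

/-- L3: the criterion -/
def T_SPT : Prop := ∀ (F : Type) [Field F] [CharZero F], LA F → ∀ P D T : F[X], P.Monic →
  P.Separable → P.natDegree = 7 → IsCoprime P D → IsSquare (nn P D) → T.Monic →
  Irreducible T → IsCoprime T P →
  (SpR P D T ↔ T.natDegree • (S P D - S P 1) + sy P D T = 0)

/-- L4: the criterion with the two parts -/
def T_SPC : Prop := ∀ (F : Type) [Field F] [CharZero F], LA F →
  ∀ (P1 P2 R1 R2 U1 U2 M D z T : F[X]),
  P1.Monic → P2.Monic → R1.Monic → R2.Monic → U1.Monic → U2.Monic → P1 = R1 * U1 →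
  P2 = R2 * U2 → (P1 * P2).Separable → P1.natDegree + P2.natDegree = 7 → IsCoprime (P1 * P2) M →
  SqM U1 M → SqM U2 M → IsSquare (nn P1 M) → IsSquare (nn P2 M) → IsCoprime (P1 * P2) D →
  IsCoprime (P1 * P2) z → P1 * P2 ∣ M - D * z ^ 2 → T.Monic → Irreducible T →
  IsCoprime T (P1 * P2) → cc P1 P2 R1 M T + cc P2 P1 R2 M T = 0 → SpR (P1 * P2) D T

/-- L5: the signs -/
def T_SGN : Prop := ∀ (F : Type) [Field F] [CharZero F], LA F →
  ∀ (P1 P2 R1 U1 M D z G' : F[X]),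
  P1.Monic → P2.Monic → R1.Monic → U1.Monic → P1 = R1 * U1 → (P1 * P2).Separable →
  IsCoprime (P1 * P2) M → SqM U1 M → IsSquare (nn P1 M) → IsCoprime (P1 * P2) D →
  IsCoprime (P1 * P2) z → P1 * P2 ∣ M - D * z ^ 2 → G'.Monic → Odd G'.natDegree →
  IsCoprime G' P1 → cc P1 P2 R1 M G' = 0 → (hpr P1 G' D = 1 ↔ cls (Phi P1 P2 D) = 0)

/-- L6: existence of the sign and its value, nonarchimedean fields -/
def T_EXF : Prop := ∀ (F : Type) [NontriviallyNormedField F] [IsUltrametricDist F]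
  [ProperSpace F] [CharZero F], (∃ e : WG F → ℤ, EInv F e) ∧
  ∀ e : WG F → ℤ, EInv F e → ∀ x : WG F, I2 x → (e x = 1 ↔ x = 0)

/-- L7: THE OUTPUT, nonarchimedean fields -/
def T_LOCF : Prop := ∀ (F : Type) [NontriviallyNormedField F] [IsUltrametricDist F]
  [ProperSpace F] [CharZero F] (e : WG F → ℤ), EInv F e → ∀ (P1 P2 D : F[X]), P1.Monic →
  P2.Monic → (P1 * P2).Separable →
  P1.natDegree + P2.natDegree = 7 → Even P1.natDegree → IsCoprime (P1 * P2) D →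
  IsSquare (P1.resultant D) → IsSquare (P2.resultant D) →
  Pool.Agent.H34.N6.CZ (Pool.Agent.H34.N6.gA (P1 * P2) D 0) (Pool.Agent.H34.N6.gA (P1 * P2) D 1) →
  ∃ G' : F[X], G'.Monic ∧ G'.Separable ∧ Odd G'.natDegree ∧ IsCoprime G' (P1 * P2) ∧
    (∀ T : F[X], T.Monic → Irreducible T → T ∣ G' → SpR (P1 * P2) D T) ∧
    hpr P1 G' D = e (cls (Phi P1 P2 D))

/-- L8: THE OUTPUT, nonarchimedean fields, the total class -/
def T_TOTF : Prop := ∀ (F : Type) [NontriviallyNormedField F] [IsUltrametricDist F]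
  [ProperSpace F] [CharZero F] (e : WG F → ℤ), EInv F e → ∀ (P D G' : F[X]), P.Monic →
  P.Separable → P.natDegree = 7 → IsCoprime P D → IsSquare (P.resultant D) → G'.Monic →
  G'.Separable → Odd G'.natDegree → IsCoprime G' P →
  (∀ T : F[X], T.Monic → Irreducible T → T ∣ G' → SpR P D T) →
  hpr P G' D = e (cls (Phi P 1 D))

/-! ### R: real numbers -/

/-- R1: the Witt group of the real numbers: the signature -/
def T_RSG : Prop := ∃ s : WG ℝ →+ ℤ, (∀ a : ℝ, a ≠ 0 → s (on a) = if 0 < a then 1 else -1) ∧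
  Function.Injective s ∧ ∀ x : WG ℝ, I2 x → (4 : ℤ) ∣ s x

/-- R2: existence and uniqueness of the sign -/
def T_EXR : Prop := (∃ e : WG ℝ → ℤ, EInv ℝ e) ∧
  ∀ (s : WG ℝ →+ ℤ) (e : WG ℝ → ℤ), (∀ a : ℝ, a ≠ 0 → s (on a) = if 0 < a then 1 else -1) →
    EInv ℝ e → ∀ x : WG ℝ, I2 x → (e x = 1 ↔ (8 : ℤ) ∣ s x)

/-- R3: the signature of a trace form -/
def T_RTF : Prop := ∀ s : WG ℝ →+ ℤ, (∀ a : ℝ, a ≠ 0 → s (on a) = if 0 < a then 1 else -1) →
  ∀ A h : ℝ[X], A.Monic → A.Separable → IsCoprime A h →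
  s (S A h) = ∑ e ∈ A.roots.toFinset,
    if 0 < eval e h / eval e (derivative A) then 1 else -1

/-- R4: the product of the signs over the real roots -/
def T_RHP : Prop := ∀ A a b : ℝ[X], A.Monic → A.Separable → IsCoprime A a → IsCoprime A b →
  hpr A a b = (-1) ^ (A.roots.toFinset.filter fun e => eval e a < 0 ∧ eval e b < 0).card

/-- R5: no definite member -/
def T_RND : Prop := ∀ (P D : ℝ[X]), P.Monic → P.Separable → P.natDegree = 7 → IsCoprime P D →
  Pool.Agent.H34.N6.CZ (Pool.Agent.H34.N6.gA P D 0) (Pool.Agent.H34.N6.gA P D 1) →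
  ∀ t : ℝ, eval t P ≠ 0 →
  |∑ e ∈ P.roots.toFinset, if 0 < eval e D * (e - t) / eval e (derivative P) then (1 : ℤ)
    else -1| ≤ 5

/-- R6: signature one or minus one gives a totally isotropic subspace -/
def T_RTI : Prop := ∀ (P D : ℝ[X]) (t : ℝ), P.Monic → P.Separable → P.natDegree = 7 →
  IsCoprime P D → eval t P ≠ 0 →
  |∑ e ∈ P.roots.toFinset, if 0 < eval e D * (e - t) / eval e (derivative P) then (1 : ℤ)
    else -1| = 1 → Pool.Agent.H34.N6.TI (Pool.Agent.H34.N6.ft P D t) 3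

/-- R7: the signs of the derivative alternate -/
def T_RAL : Prop := ∀ (P : ℝ[X]), P.Monic → P.Separable → ∀ e ∈ P.roots.toFinset,
  (0 < eval e (derivative P) ↔ Even ((P.roots.toFinset.filter fun x => e < x).card))

/-- R8: the combinatorial statement: `R` the real roots, `N₁`, `N₂` the roots of the two parts
where `D` is negative, `sg e` the sign of the derivative -/
def T_RCB : Prop := ∀ (R N1 N2 : Finset ℝ) (sg : ℝ → ℤ), Odd R.card → R.card ≤ 7 →
  N1 ⊆ R → N2 ⊆ R → Disjoint N1 N2 → Even N1.card → Even N2.card →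
  (∀ e ∈ R, sg e = if Even ((R.filter fun x => e < x).card) then 1 else -1) →
  (∀ t : ℝ, t ∉ R → |∑ e ∈ R, (if e ∈ N1 ∪ N2 then -1 else 1) * sg e *
    (if t < e then 1 else -1)| ≤ 5) →
  ∃ t : ℝ, t ∉ R ∧ |∑ e ∈ R, (if e ∈ N1 ∪ N2 then -1 else 1) * sg e *
      (if t < e then 1 else -1)| = 1 ∧
    (Even ((N1.filter fun e => e < t).card) ↔ (4 : ℤ) ∣ ∑ e ∈ N1, sg e) ∧
    (Even (((N1 ∪ N2).filter fun e => e < t).card) ↔ (4 : ℤ) ∣ ∑ e ∈ N1 ∪ N2, sg e)

/-- R9: THE OUTPUT, real numbers -/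
def T_LOCR : Prop := ∀ (e : WG ℝ → ℤ), EInv ℝ e → ∀ (P1 P2 D : ℝ[X]), P1.Monic → P2.Monic →
  (P1 * P2).Separable →
  P1.natDegree + P2.natDegree = 7 → Even P1.natDegree → IsCoprime (P1 * P2) D →
  IsSquare (P1.resultant D) → IsSquare (P2.resultant D) →
  Pool.Agent.H34.N6.CZ (Pool.Agent.H34.N6.gA (P1 * P2) D 0) (Pool.Agent.H34.N6.gA (P1 * P2) D 1) →
  ∃ x η : ℝ, 0 < η ∧ ∀ t : ℝ, |t - x| < η → eval t (P1 * P2) ≠ 0 ∧
    Pool.Agent.H34.N6.TI (Pool.Agent.H34.N6.ft (P1 * P2) D t) 3 ∧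
    hpr P1 (X - C t) D = e (cls (Phi P1 P2 D)) ∧
    hpr (P1 * P2) (X - C t) D = e (cls (Phi (P1 * P2) 1 D))

end Pool.Agent.H63.WT
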