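import Pool.Agent.H34.N6.Defs
import Pool.Agent.H32.QC.TargetsL

/-!
# The relaxed local lemma for two quadrics in `ℙ⁶`: definitions

The Witt group of a field, trace forms and symbols.
-/

set_option autoImplicit false

open Polynomial Matrix Pool.Agent.H32.QC

namespace Pool.Agent.H63.WT

/-! ### The Witt group -/

/-- there is a totally isotropic subspace of dimension `r` (any index type) -/
def TIs {F ι : Type} [Field F] [Fintype ι] (A : Matrix ι ι F) (r : ℕ) : Prop :=
  ∃ b : Fin r → ι → F, LinearIndependent F b ∧ ∀ i j, b i ⬝ᵥ (A *ᵥ b j) = 0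

/-- metabolic: a totally isotropic subspace of half the dimension -/
def Met {F ι : Type} [Field F] [Fintype ι] (A : Matrix ι ι F) : Prop :=
  ∃ r : ℕ, Fintype.card ι = 2 * r ∧ TIs A r

/-- the form is anisotropic -/
def Anis {F ι : Type} [Field F] [Fintype ι] (A : Matrix ι ι F) : Prop :=
  ∀ z : ι → F, z ≠ 0 → z ⬝ᵥ (A *ᵥ z) ≠ 0

/-- symmetric and nondegenerate -/
def SN {F ι : Type} [Field F] [Fintype ι] [DecidableEq ι] (A : Matrix ι ι F) : Prop :=
  A.IsSymm ∧ A.det ≠ 0

/-- nondegenerate symmetric matrices -/
def QF (F : Type) [Field F] : Type := Σ n : ℕ, {A : Matrix (Fin n) (Fin n) F // SN A}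

/-- the orthogonal sum -/
def osum {F : Type} [Field F] {m n : ℕ} (A : Matrix (Fin m) (Fin m) F)
    (B : Matrix (Fin n) (Fin n) F) : Matrix (Fin (m + n)) (Fin (m + n)) F :=
  reindex finSumFinEquiv finSumFinEquiv (fromBlocks A 0 0 B)

/-- the relations of the Witt group -/
def rel (F : Type) [Field F] : Set (FreeAbelianGroup (QF F)) :=
  {x | (∃ a : QF F, Met a.2.1 ∧ x = FreeAbelianGroup.of a) ∨
    ∃ (a b c : QF F) (h : c.1 = a.1 + b.1),
      reindex (finCongr h) (finCongr h) c.2.1 = osum a.2.1 b.2.1 ∧
      x = FreeAbelianGroup.of c - FreeAbelianGroup.of a - FreeAbelianGroup.of b}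

/-- the Witt group -/
def WG (F : Type) [Field F] : Type := FreeAbelianGroup (QF F) ⧸ AddSubgroup.closure (rel F)

noncomputable instance (F : Type) [Field F] : AddCommGroup (WG F) :=
  inferInstanceAs (AddCommGroup (FreeAbelianGroup (QF F) ⧸ AddSubgroup.closure (rel F)))

open Classical in
/-- the class of a matrix (zero if it is degenerate) -/
noncomputable def cls {F ι : Type} [Field F] [Fintype ι] (A : Matrix ι ι F) : WG F :=
  if h : SN (reindex (Fintype.equivFin ι) (Fintype.equivFin ι) A) then
    QuotientAddGroup.mk' (AddSubgroup.closure (rel F)) (FreeAbelianGroup.of ⟨_, _, h⟩)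
  else 0

/-- the class of a form in one variable -/
noncomputable def on {F : Type} [Field F] (a : F) : WG F :=
  cls (fun _ _ : Fin 1 => a : Matrix (Fin 1) (Fin 1) F)

/-- the square of the fundamental ideal: even dimension, signed discriminant a square -/
def I2 {F : Type} [Field F] (x : WG F) : Prop :=
  ∃ (n : ℕ) (A : Matrix (Fin (2 * n)) (Fin (2 * n)) F), SN A ∧
    IsSquare ((-1) ^ n * A.det) ∧ x = cls A

/-- an algebraic local field (not real): all finite extensions have norm groups of index two
and more than two square classes -/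
def LA (F : Type) [Field F] : Prop :=
  (2 : F) ≠ 0 ∧ ∀ (E : Type) [Field E] [Algebra F E], FiniteDimensional F E → NI E ∧ 2 < nsq E

/-- the transfer of a form with respect to a functional, in a basis -/
def trm {F E ι : Type} [Field F] [Field E] [Algebra F E] {d : ℕ} (s : E →ₗ[F] F)
    (b : Fin d → E) (A : Matrix ι ι E) : Matrix (ι × Fin d) (ι × Fin d) F :=
  fun x y => s (A x.1 y.1 * (b x.2 * b y.2))

/-! ### Trace forms and symbols -/

/-- the Gram matrix of `u ↦ lam A (h u²)` on the polynomials modulo `A` -/
noncomputable def gm {F : Type} [Field F] (A h : F[X]) :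
    Matrix (Fin A.natDegree) (Fin A.natDegree) F :=
  fun i j => Pool.Agent.H34.N6.lam A (h * X ^ ((i : ℕ) + (j : ℕ)))

/-- the class of the trace form -/
noncomputable def S {F : Type} [Field F] (A h : F[X]) : WG F := cls (gm A h)

/-- the symbol of `a` and `b` modulo `A`, as a class -/
noncomputable def sy {F : Type} [Field F] (A a b : F[X]) : WG F :=
  S A 1 - S A a - S A b + S A (a * b)

/-- the conic `z² = a x² + b y²` has a point modulo `p` -/
def SolM {F : Type} [Field F] (p a b : F[X]) : Prop :=
  ∃ x y z : F[X], (¬ p ∣ x ∨ ¬ p ∣ y ∨ ¬ p ∣ z) ∧ p ∣ z ^ 2 - a * x ^ 2 - b * y ^ 2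

open Classical in
/-- the symbol modulo an irreducible polynomial, as a sign -/
noncomputable def hm {F : Type} [Field F] (p a b : F[X]) : ℤ := if SolM p a b then 1 else -1

open Classical in
/-- the product of the symbols over the irreducible factors -/
noncomputable def hpr {F : Type} [Field F] (A a b : F[X]) : ℤ :=
  ((UniqueFactorizationMonoid.normalizedFactors A).map fun p => hm p a b).prod

/-- `D` is a square modulo `P` -/
def SqM {F : Type} [Field F] (P D : F[X]) : Prop := ∃ s : F[X], P ∣ D - s ^ 2

/-- the matrix of the constant of the vertical class -/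
noncomputable def Phi {F : Type} [Field F] (P1 P2 D : F[X]) :
    Matrix (Fin P1.natDegree ⊕ Fin P1.natDegree) (Fin P1.natDegree ⊕ Fin P1.natDegree) F :=
  fromBlocks (gm P1 (D * P2)) 0 0 (-gm P1 P2)

open Classical in
/-- the constant of the vertical class, as a sign -/
noncomputable def qv {F : Type} [Field F] (P1 P2 D : F[X]) : ℤ :=
  if Met (Phi P1 P2 D) then 1 else -1

/-- a sign on the Witt group which is multiplicative on `I²` and extends the Hilbert symbol -/
structure EInv (F : Type) [Field F] (e : WG F → ℤ) : Prop where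
  sgn : ∀ x : WG F, e x = 1 ∨ e x = -1
  add : ∀ x y : WG F, I2 x → I2 y → e (x + y) = e x * e y
  pfi : ∀ a b : F, a ≠ 0 → b ≠ 0 → e (on 1 - on a - on b + on (a * b)) = hil a b

/-- the form at a root of `T` is split -/
def SpR {F : Type} [Field F] (P D T : F[X]) : Prop :=
  ∀ (E : Type) [Field E] [Algebra F E] (t : E), aeval t T = 0 → Algebra.adjoin F {t} = ⊤ →
    Pool.Agent.H34.N6.TI
      (Pool.Agent.H34.N6.ft (P.map (algebraMap F E)) (D.map (algebraMap F E)) t) 3

end Pool.Agent.H63.WT
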