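import Pool.Agent.H63.WT.Defs

/-!
# The relaxed local lemma: targets, algebra (Witt group, transfers, trace forms, symbols)
-/

set_option autoImplicit false

open Polynomial Matrix Pool.Agent.H32.QC

namespace Pool.Agent.H63.WT

/-! ### A: the Witt group of a field -/

/-- A1: Lagrangian reduction (cancellation of a metabolic summand) -/
def T_WCL : Prop := ∀ (F : Type) [Field F], (2 : F) ≠ 0 → ∀ (m n : ℕ)
  (A : Matrix (Fin m) (Fin m) F) (B : Matrix (Fin n) (Fin n) F), SN A → SN B →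
  Met (osum A B) → Met A → Met B

/-- A2: a form with trivial class is metabolic -/
def T_W0 : Prop := ∀ (F : Type) [Field F], (2 : F) ≠ 0 → ∀ (ι : Type) [Fintype ι]
  [DecidableEq ι] (A : Matrix ι ι F), SN A → cls A = 0 → Met A

/-- A3: calculus of classes -/
def T_CLS : Prop := ∀ (F : Type) [Field F], (2 : F) ≠ 0 →
  (∀ (ι : Type) [Fintype ι] [DecidableEq ι] (A : Matrix ι ι F), SN A → Met A → cls A = 0) ∧
  (∀ (ι κ : Type) [Fintype ι] [DecidableEq ι] [Fintype κ] [DecidableEq κ] (A : Matrix ι ι F)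
    (B : Matrix κ κ F), SN A → SN B → cls (fromBlocks A 0 0 B) = cls A + cls B) ∧
  (∀ (ι κ : Type) [Fintype ι] [DecidableEq ι] [Fintype κ] [DecidableEq κ] (A : Matrix ι ι F)
    (U : Matrix ι κ F) (V : Matrix κ ι F), SN A → U * V = 1 → V * U = 1 →
    SN (Uᵀ * A * U) ∧ cls (Uᵀ * A * U) = cls A) ∧
  (∀ (ι : Type) [Fintype ι] [DecidableEq ι] (A : Matrix ι ι F), SN A → cls (-A) = -cls A) ∧
  ∀ x : WG F, ∃ (n : ℕ) (A : Matrix (Fin n) (Fin n) F), SN A ∧ x = cls A

/-- A4: the signed discriminant of a metabolic form -/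
def T_MDS : Prop := ∀ (F : Type) [Field F], (2 : F) ≠ 0 → ∀ (ι : Type) [Fintype ι]
  [DecidableEq ι] (A : Matrix ι ι F) (r : ℕ), SN A → Met A → Fintype.card ι = 2 * r →
  IsSquare ((-1) ^ r * A.det)

/-- A5: membership in `I²` is decided by the signed discriminant -/
def T_I2D : Prop := ∀ (F : Type) [Field F], (2 : F) ≠ 0 → ∀ (ι : Type) [Fintype ι]
  [DecidableEq ι] (A : Matrix ι ι F) (r : ℕ), SN A → Fintype.card ι = 2 * r →
  (I2 (cls A) ↔ IsSquare ((-1) ^ r * A.det))

/-- A6: `I²` is a subgroup -/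
def T_I2A : Prop := ∀ (F : Type) [Field F], (2 : F) ≠ 0 → I2 (0 : WG F) ∧
  (∀ x y : WG F, I2 x → I2 y → I2 (x + y)) ∧ ∀ x : WG F, I2 x → I2 (-x)

/-- A7: quaternary forms with square determinant -/
def T_AN4 : Prop := ∀ (F : Type) [Field F], (2 : F) ≠ 0 → ∀ (ι : Type) [Fintype ι]
  [DecidableEq ι] (A : Matrix ι ι F), Fintype.card ι = 4 → SN A → IsSquare A.det →
  (Met A ↔ ¬ Anis A)

/-- A8: base change -/
def T_BCH : Prop := ∀ (F E : Type) [Field F] [Field E], (2 : F) ≠ 0 → ∀ φ : F →+* E,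
  ∃ f : WG F →+ WG E, ∀ (ι : Type) [Fintype ι] [DecidableEq ι] (A : Matrix ι ι F), SN A →
    f (cls A) = cls (A.map φ)

/-- A9: transfer -/
def T_TRH : Prop := ∀ (F E : Type) [Field F] [Field E] [Algebra F E], (2 : F) ≠ 0 →
  ∀ (d : ℕ) (b : Module.Basis (Fin d) F E) (s : E →ₗ[F] F), s ≠ 0 →
  ∃ f : WG E →+ WG F, ∀ (ι : Type) [Fintype ι] [DecidableEq ι] (A : Matrix ι ι E), SN A →
    SN (trm s b A) ∧ f (cls A) = cls (trm s b A)

/-- the class of the Pfister form `<1, -a, -b, ab>` -/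
noncomputable def pf {F : Type} [Field F] (a b : F) : WG F := on 1 - on a - on b + on (a * b)

/-- A10: binary Pfister forms -/
def T_PFI : Prop := ∀ (F : Type) [Field F], (2 : F) ≠ 0 → ∀ a b : F, a ≠ 0 → b ≠ 0 →
  I2 (pf a b) ∧ (pf a b = 0 ↔ Sol a b)

/-- A11: forms in one variable and diagonal forms -/
def T_ONE : Prop := ∀ (F : Type) [Field F], (2 : F) ≠ 0 →
  (∀ a b : F, a ≠ 0 → b ≠ 0 → on (a * b ^ 2) = on a) ∧ (∀ a : F, a ≠ 0 → on (-a) = -on a) ∧
  (∀ (ι : Type) [Fintype ι] [DecidableEq ι] (a : ι → F), (∀ i, a i ≠ 0) →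
    cls (Matrix.diagonal a) = ∑ i, on (a i)) ∧
  ∀ x : WG F, ∃ (n : ℕ) (a : Fin n → F), (∀ i, a i ≠ 0) ∧ x = ∑ i, on (a i)

/-! ### B: local fields, algebraically -/

/-- B1: finite extensions -/
def T_LAE : Prop := ∀ (F E : Type) [Field F] [Field E] [Algebra F E], LA F →
  FiniteDimensional F E → LA E

/-- B2: nonarchimedean local fields -/
def T_LAL : Prop := ∀ (F : Type) [NontriviallyNormedField F] [IsUltrametricDist F]
  [ProperSpace F] [CharZero F], LA F

/-- B3: `I²` has two elements -/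
def T_IV : Prop := ∀ (F : Type) [Field F], (2 : F) ≠ 0 → NI F → 2 < nsq F →
  (∀ x : WG F, I2 x → x + x = 0) ∧ (∀ x y : WG F, I2 x → I2 y → x ≠ 0 → y ≠ 0 → x = y) ∧
  (∃ x : WG F, I2 x ∧ x ≠ 0) ∧ ∀ x : WG F, I2 x → ∃ a b : F, a ≠ 0 ∧ b ≠ 0 ∧ x = pf a b

/-- B4: scaling does not change the classes in `I²` -/
def T_SCL : Prop := ∀ (F : Type) [Field F], (2 : F) ≠ 0 → NI F → 2 < nsq F → ∀ c : F, c ≠ 0 →
  (∀ (ι : Type) [Fintype ι] [DecidableEq ι] (A : Matrix ι ι F), SN A → I2 (cls A) →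
    cls (c • A) = cls A) ∧
  ∀ (ι κ : Type) [Fintype ι] [DecidableEq ι] [Fintype κ] [DecidableEq κ] (A : Matrix ι ι F)
    (B : Matrix κ κ F), SN A → SN B → I2 (cls A - cls B) →
    cls (c • A) - cls (c • B) = cls A - cls B

/-- B5: `I²` dies in quadratic extensions -/
def T_QDZ : Prop := ∀ (F E : Type) [Field F] [Field E] [Algebra F E], LA F →
  Module.finrank F E = 2 → ∀ f : WG F →+ WG E,
  (∀ (ι : Type) [Fintype ι] [DecidableEq ι] (A : Matrix ι ι F), SN A →
    f (cls A) = cls (A.map (algebraMap F E))) → ∀ x : WG F, I2 x → f x = 0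

/-- the map `f` is the transfer for the functional `s` in the basis `b` -/
def IsTr {F E : Type} [Field F] [Field E] [Algebra F E] {d : ℕ} (s : E →ₗ[F] F)
    (b : Fin d → E) (f : WG E →+ WG F) : Prop :=
  ∀ (ι : Type) [Fintype ι] [DecidableEq ι] (A : Matrix ι ι E), SN A →
    SN (trm s b A) ∧ f (cls A) = cls (trm s b A)

/-- the transfers are injective on `I²` -/
def KP (F E : Type) [Field F] [Field E] [Algebra F E] : Prop :=
  ∀ (d : ℕ) (b : Module.Basis (Fin d) F E) (s : E →ₗ[F] F) (f : WG E →+ WG F), s ≠ 0 →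
    IsTr s b f → ∀ x : WG E, I2 x → f x = 0 → x = 0

/-- B6: transfers respect `I²` -/
def T_TRI : Prop := ∀ (F E : Type) [Field F] [Field E] [Algebra F E], LA F →
  ∀ (d : ℕ) (b : Module.Basis (Fin d) F E) (s : E →ₗ[F] F) (f : WG E →+ WG F), s ≠ 0 →
  IsTr s b f → ∀ x : WG E, I2 x → I2 (f x)

/-- B7: injectivity for one functional and one basis is enough -/
def T_TRU : Prop := ∀ (F E : Type) [Field F] [Field E] [Algebra F E], LA F →
  (∃ (d : ℕ) (b : Module.Basis (Fin d) F E) (s : E →ₗ[F] F) (f : WG E →+ WG F) (x : WG E),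
    s ≠ 0 ∧ IsTr s b f ∧ I2 x ∧ f x ≠ 0) → KP F E

/-- B8: towers -/
def T_TRT : Prop := ∀ (F E K : Type) [Field F] [Field E] [Field K] [Algebra F E] [Algebra E K]
  [Algebra F K] [IsScalarTower F E K], LA F → FiniteDimensional F E → FiniteDimensional E K →
  (KP F K ↔ KP F E ∧ KP E K)

/-- B9: quadratic extensions -/
def T_TR2 : Prop := ∀ (F E : Type) [Field F] [Field E] [Algebra F E], LA F →
  Module.finrank F E = 2 → KP F E

/-- B10: extensions of odd degree -/
def T_TRO : Prop := ∀ (F E : Type) [Field F] [CharZero F] [Field E] [Algebra F E], LA F →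
  FiniteDimensional F E → Odd (Module.finrank F E) → KP F E

/-- B11: extensions of degree `2 ^ n` in a tower of quadratic extensions, Galois case -/
def T_TRS : Prop := ∀ (n : ℕ) (F E : Type) [Field F] [CharZero F] [Field E] [Algebra F E],
  LA F →
  IsGalois F E → Module.finrank F E = 2 ^ n → KP F E

/-- B12: all finite extensions (characteristic zero) -/
def T_TR : Prop := ∀ (F E : Type) [Field F] [CharZero F] [Field E] [Algebra F E], LA F →
  FiniteDimensional F E → KP F E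

/-! ### C: trace forms -/

/-- the norm of `h` modulo `A` -/
noncomputable def nn {F : Type} [Field F] (A h : F[X]) : F := (gm A h).det * (gm A 1).det

/-- C1: trace forms, symmetry and determinants -/
def T_GDT : Prop := ∀ (F : Type) [Field F] (A : F[X]), A.Monic →
  (gm A 1).det = (-1) ^ (A.natDegree * (A.natDegree - 1) / 2) ∧
  (∀ h, (gm A h).IsSymm) ∧ (∀ h, ((gm A h).det ≠ 0 ↔ IsCoprime A h)) ∧
  (∀ h h', nn A (h * h') = nn A h * nn A h') ∧ (∀ c : F, nn A (C c) = c ^ A.natDegree) ∧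
  (∀ h h', A ∣ h - h' → gm A h = gm A h') ∧
  (∀ t : F, A = X - C t → ∀ h, nn A h = eval t h)

/-- C2: norms, products and reciprocity -/
def T_NNR : Prop := ∀ (F : Type) [Field F] (A B : F[X]), A.Monic → B.Monic →
  (∀ h, nn (A * B) h = nn A h * nn B h) ∧
  nn A B = (-1) ^ (A.natDegree * B.natDegree) * nn B A

/-- C3: norms and resultants -/
def T_NRS : Prop := ∀ (F : Type) [Field F] (A h : F[X]), A.Monic → IsCoprime A h →
  (IsSquare (A.resultant h) ↔ IsSquare (nn A h))

/-- C4: Euler's formula -/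
def T_SEU : Prop := ∀ (F : Type) [Field F], (2 : F) ≠ 0 → ∀ (A : F[X]) (c : F), A.Monic →
  c ≠ 0 → S A (C c) = if Even A.natDegree then 0 else on c

/-- C5: products (Chinese remainder theorem) -/
def T_SCR : Prop := ∀ (F : Type) [Field F], (2 : F) ≠ 0 → ∀ A B h : F[X], A.Monic → B.Monic →
  IsCoprime A B → IsCoprime (A * B) h → S (A * B) h = S A (h * B) + S B (h * A)

/-- C6: squares, linear polynomials, scalars -/
def T_SSQ : Prop := ∀ (F : Type) [Field F], (2 : F) ≠ 0 → ∀ A : F[X], A.Monic →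
  (∀ h h' z : F[X], IsCoprime A h → IsCoprime A h' → A ∣ h - h' * z ^ 2 → S A h = S A h') ∧
  (∀ t : F, A = X - C t → ∀ h : F[X], eval t h ≠ 0 → S A h = on (eval t h)) ∧
  ∀ (c : F) (h : F[X]), gm A (C c * h) = c • gm A h

/-- C7: the values of a trace form, and polynomials of small degree -/
def T_GMV : Prop := ∀ (F : Type) [Field F] (A h : F[X]), A.Monic →
  (∀ z w : Fin A.natDegree → F, z ⬝ᵥ (gm A h *ᵥ w) =
    Pool.Agent.H34.N6.lam A (h * (∑ i, C (z i) * X ^ (i : ℕ)) * ∑ i, C (w i) * X ^ (i : ℕ))) ∧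
  (∀ g : F[X], g.natDegree < A.natDegree → Pool.Agent.H34.N6.lam A g = g.coeff (A.natDegree - 1))

/-- C8: homomorphisms of fields -/
def T_GMM : Prop := ∀ (F E : Type) [Field F] [Field E] (φ : F →+* E) (A h : F[X]), A.Monic →
  nn (A.map φ) (h.map φ) = φ (nn A h) ∧ (Met (gm A h) → Met (gm (A.map φ) (h.map φ))) ∧
  ∃ e : (A.map φ).natDegree = A.natDegree, ∀ i j,
    gm (A.map φ) (h.map φ) i j = φ (gm A h (Fin.cast e i) (Fin.cast e j))

/-- C9: Chinese remainders for norms and squares: `h` is prime to `A` iff its norm is not zero,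
and norms of squares are squares -/
def T_NSQ : Prop := ∀ (F : Type) [Field F] (A h h' z : F[X]), A.Monic → IsCoprime A h →
  IsCoprime A h' → A ∣ h - h' * z ^ 2 → (IsSquare (nn A h) ↔ IsSquare (nn A h'))

/-! ### D: symbols -/

/-- D1: the symbol is in `I²` -/
def T_SYI : Prop := ∀ (F : Type) [Field F], (2 : F) ≠ 0 → ∀ A a b : F[X], A.Monic →
  IsCoprime A a → IsCoprime A b → I2 (sy A a b)

/-- D2: irreducible moduli -/
def T_SYH : Prop := ∀ (F : Type) [Field F] [CharZero F], LA F → ∀ p a b : F[X], p.Monic →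
  Irreducible p → IsCoprime p a → IsCoprime p b → (sy p a b = 0 ↔ SolM p a b)

/-- D3: products of moduli -/
def T_SYF : Prop := ∀ (F : Type) [Field F] [CharZero F], LA F → ∀ A B a b : F[X], A.Monic →
  B.Monic → (A * B).Separable → IsCoprime (A * B) a → IsCoprime (A * B) b →
  sy (A * B) a b = sy A a b + sy B a b

/-- D4: bimultiplicativity -/
def T_SYB : Prop := ∀ (F : Type) [Field F] [CharZero F], LA F → ∀ A a b c : F[X], A.Monic →
  A.Separable → IsCoprime A a → IsCoprime A b → IsCoprime A c →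
  sy A a (b * c) = sy A a b + sy A a c

/-- D5: the norm trick -/
def T_SYN : Prop := ∀ (F : Type) [Field F] [CharZero F], LA F → ∀ A M Y : F[X], A.Monic →
  A.Separable → IsCoprime A M → IsCoprime A (Y ^ 2 - M) → sy A M (Y ^ 2 - M) = 0

/-- D6: constants, and squares modulo `A` -/
def T_SYC : Prop := ∀ (F : Type) [Field F] [CharZero F], LA F → ∀ A M : F[X], A.Monic →
  A.Separable → IsCoprime A M →
  (∀ l : F, l ≠ 0 → IsSquare (nn A M) → sy A M (C l) = 0) ∧
  (∀ h : F[X], IsCoprime A h → SqM A M → sy A M h = 0) ∧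
  ∀ h h' : F[X], IsCoprime A h → A ∣ h - h' → sy A M h = sy A M h'

/-- D7: a symbol with prescribed value (nondegeneracy), small elements -/
def T_SYP : Prop := ∀ (F : Type) [Field F] [CharZero F], LA F → ∀ p M : F[X], p.Monic →
  Irreducible p → IsCoprime p M → ¬ SqM p M → ∃ g : F[X], IsCoprime p g ∧ sy p M g ≠ 0

/-- D8: the product of the signs -/
def T_HPR : Prop := ∀ (F : Type) [Field F] [CharZero F], LA F → ∀ A a b : F[X], A.Monic →
  A.Separable → IsCoprime A a → IsCoprime A b →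
  hpr A a b = hpr A b a ∧ (hpr A a b = 1 ∨ hpr A a b = -1) ∧ (hpr A a b = 1 ↔ sy A a b = 0)

end Pool.Agent.H63.WT
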