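import Pool.Agent.H63.WT.TA
import Pool.Agent.H28.N6.Targets

/-!
# The relaxed local lemma: targets, Euler identities, the pencils, the combinatorics
-/

set_option autoImplicit false

open Polynomial Matrix Pool.Agent.H32.QC

namespace Pool.Agent.H63.WT

/-! ### E: identities in the Witt group; `M = m M₀`, `G h` is the form `Tr (h z² / M')` -/

/-- the class of the quaternary form attached to `h` -/
noncomputable def G {F : Type} [Field F] (m : F) (M0 h : F[X]) : WG F := S M0 (C m * h)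

/-- E1: one factor -/
def T_EU1 : Prop := ∀ (F : Type) [Field F], (2 : F) ≠ 0 → ∀ (m : F) (M0 A : F[X]), m ≠ 0 →
  M0.Monic → M0.natDegree = 4 → A.Monic → IsCoprime A M0 →
  S A (C m * M0) + G m M0 A = if Even A.natDegree then 0 else on m

/-- E2: two factors -/
def T_EU2 : Prop := ∀ (F : Type) [Field F], (2 : F) ≠ 0 → ∀ (m : F) (M0 A B : F[X]), m ≠ 0 →
  M0.Monic → M0.natDegree = 4 → A.Monic → B.Monic → IsCoprime A B → IsCoprime A M0 →
  IsCoprime B M0 →
  S A (C m * M0 * B) + S B (C m * M0 * A) + G m M0 (A * B) =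
    (if Even (A.natDegree + B.natDegree) then 0 else on m) ∧
  S A B + S B A = if Even (A.natDegree + B.natDegree) then 0 else on 1

/-- the constant `q` and the function `c` of one of the two parts (`A` the part, `B` the other
part, `R` the ramified part of `A`) -/
noncomputable def qc {F : Type} [Field F] (A B M : F[X]) : WG F := S A (M * B) - S A B

/-- the value at `T` -/
noncomputable def cc {F : Type} [Field F] (A B R M T : F[X]) : WG F :=
  T.natDegree • qc A B M + sy R M T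

/-- E3: the constant of an even part -/
def T_EU3 : Prop := ∀ (F : Type) [Field F], (2 : F) ≠ 0 → ∀ (m : F) (M0 A B : F[X]), m ≠ 0 →
  M0.Monic → M0.natDegree = 4 → A.Monic → B.Monic → IsCoprime A B → IsCoprime (A * B) M0 →
  Even A.natDegree → qc A B (C m * M0) = sy A (C m * M0) B - G m M0 A

/-- E4: even `T` modulo which `M` is a square, even part -/
def T_EU4 : Prop := ∀ (F : Type) [Field F], (2 : F) ≠ 0 → ∀ (m : F) (M0 A T : F[X]), m ≠ 0 →
  M0.Monic → M0.natDegree = 4 → A.Monic → T.Monic → IsCoprime A T → IsCoprime (A * T) M0 →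
  Even A.natDegree → Even T.natDegree → SqM T (C m * M0) →
  sy A (C m * M0) T = G m M0 A - G m M0 (A * T)

/-- E5: rational points, odd part -/
def T_EU5 : Prop := ∀ (F : Type) [Field F], (2 : F) ≠ 0 → ∀ (m : F) (M0 A : F[X]) (t : F),
  m ≠ 0 → M0.Monic → M0.natDegree = 4 → A.Monic → IsCoprime A M0 → Odd A.natDegree →
  eval t A ≠ 0 → eval t M0 ≠ 0 → IsSquare (m * eval t M0) →
  sy A (C m * M0) (X - C t) = on 1 - on m + G m M0 A - G m M0 (A * (X - C t))

/-- E6: rational points, even part, leading coefficient a square -/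
def T_EU6 : Prop := ∀ (F : Type) [Field F], (2 : F) ≠ 0 → ∀ (m : F) (M0 A : F[X]) (t : F),
  m ≠ 0 → IsSquare m → M0.Monic → M0.natDegree = 4 → A.Monic → IsCoprime A M0 →
  Even A.natDegree → eval t A ≠ 0 → eval t M0 ≠ 0 → IsSquare (m * eval t M0) →
  sy A (C m * M0) (X - C t) = G m M0 A - G m M0 (A * (X - C t))

/-- E7: rational points, odd part `A`, even part `B`: the value -/
def T_EU7 : Prop := ∀ (F : Type) [Field F], (2 : F) ≠ 0 → ∀ (m : F) (M0 A B : F[X]) (t : F),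
  m ≠ 0 → M0.Monic → M0.natDegree = 4 → A.Monic → B.Monic → IsCoprime A B →
  IsCoprime (A * B) M0 → Odd A.natDegree → eval t A ≠ 0 → eval t M0 ≠ 0 →
  IsSquare (m * eval t M0) →
  qc A B (C m * M0) + sy A (C m * M0) (X - C t) =
    sy A (C m * M0) B - G m M0 (A * (X - C t))

/-- E8: the sum of the constants -/
def T_EU8 : Prop := ∀ (F : Type) [Field F], (2 : F) ≠ 0 → ∀ (A B M : F[X]), A.Monic → B.Monic →
  IsCoprime A B → IsCoprime (A * B) M → qc A B M + qc B A M = S (A * B) M - S (A * B) 1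

/-- E9: forms in `I²` -/
def T_EU9 : Prop := ∀ (F : Type) [Field F], (2 : F) ≠ 0 →
  (∀ (m : F) (M0 h : F[X]), m ≠ 0 → M0.Monic → M0.natDegree = 4 → IsCoprime M0 h →
    (I2 (G m M0 h) ↔ IsSquare (nn M0 h)) ∧
    (IsSquare (nn M0 h) → (G m M0 h = 0 ↔ ¬ Anis (gm M0 h)) ∧ (G m M0 h = 0 ↔ Met (gm M0 h)))) ∧
  (∀ A B M : F[X], A.Monic → IsCoprime A B → IsCoprime A M → (I2 (qc A B M) ↔ IsSquare (nn A M))) ∧
  ∀ (m : F) (M0 A : F[X]), m ≠ 0 → M0.Monic → M0.natDegree = 4 → IsCoprime M0 A →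
    IsSquare (m * nn M0 A) → I2 (on 1 - on m + G m M0 A)

/-! ### F: points of `y² = M(t)` and the norm trick -/

/-- F1: the fourth point -/
def T_FPT : Prop := ∀ (F : Type) [Field F], (2 : F) ≠ 0 → ∀ (m : F) (M0 : F[X])
  (t y : Fin 3 → F), m ≠ 0 → M0.Monic → M0.natDegree = 4 → Function.Injective t →
  (∀ i, y i ≠ 0 ∧ m * eval (t i) M0 = y i ^ 2) →
  ∃ (Y : F[X]) (l s : F), l ≠ 0 ∧
    Y ^ 2 - C m * M0 = C l * ((X - C (t 0)) * (X - C (t 1)) * (X - C (t 2)) * (X - C s))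

/-- F2: reduction of a divisor, degrees -/
def T_RED : Prop := ∀ (F : Type) [Field F], (2 : F) ≠ 0 → ∀ (m : F) (M0 T : F[X]), m ≠ 0 →
  M0.Monic → M0.Separable → M0.natDegree = 4 → T.Monic → SqM T (C m * M0) →
  3 ≤ T.natDegree → ∃ (Y B : F[X]) (l : F), l ≠ 0 ∧ B.Monic ∧ B.natDegree < T.natDegree ∧
    Y ^ 2 - C m * M0 = C l * (T * B) ∧ (¬ IsSquare m → Even (T.natDegree + B.natDegree))

/-- F3: an odd divisor gives a rational point (Springer's argument) -/
def T_ODP : Prop := ∀ (F : Type) [Field F], (2 : F) ≠ 0 → ∀ (m : F) (M0 T : F[X]), m ≠ 0 →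
  M0.Monic → M0.Separable → M0.natDegree = 4 → T.Monic → SqM T (C m * M0) →
  Odd T.natDegree → IsSquare m ∨ ∃ t : F, IsSquare (m * eval t M0)

/-- F4: ramified and unramified part -/
def T_RAM : Prop := ∀ (F : Type) [Field F], (2 : F) ≠ 0 → ∀ A M : F[X], A.Monic →
  A.Separable → IsCoprime A M → ∃ R U : F[X], R.Monic ∧ U.Monic ∧ A = R * U ∧ SqM U M ∧
    ∀ p : F[X], Irreducible p → p ∣ R → ¬ SqM p M

/-- F5: the norm trick in the form in which it is used -/
def T_NTR : Prop := ∀ (F : Type) [Field F] [CharZero F], LA F → ∀ (R M Y T : F[X]) (l : F),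
  R.Monic → R.Separable → IsCoprime R M → (∀ p : F[X], Irreducible p → p ∣ R → ¬ SqM p M) →
  IsSquare (nn R M) → l ≠ 0 → Y ^ 2 - M = C l * T → IsCoprime R T ∧ sy R M T = 0

/-! ### G: local fields, topology -/

/-- G0: elements close to one are squares modulo `A` -/
def T_SQP : Prop := ∀ (F : Type) [NontriviallyNormedField F] [IsUltrametricDist F]
  [ProperSpace F] [CharZero F] (A : F[X]), A.Monic → ∃ ε : ℝ, 0 < ε ∧ ∀ u : F[X],
  u.natDegree < A.natDegree → (∀ i, ‖u.coeff i‖ < ε) →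
  ∃ z : F[X], IsCoprime A z ∧ A ∣ (1 + u) - z ^ 2

/-- G0a: the remainder is a bounded function -/
def T_RMB : Prop := ∀ (F : Type) [NontriviallyNormedField F] [IsUltrametricDist F] (A g : F[X])
  (N : ℕ), A.Monic → ∃ K : ℝ, 0 < K ∧ ∀ (h : F[X]) (ε : ℝ), h.natDegree ≤ N → 0 < ε →
  (∀ i, ‖h.coeff i‖ ≤ ε) → ∀ i, ‖((g * h) %ₘ A).coeff i‖ ≤ K * ε

/-- G0b: extensions generated by a root, with norms -/
def T_EXT : Prop := ∀ (F : Type) [NontriviallyNormedField F] [IsUltrametricDist F]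
  [ProperSpace F] [CharZero F] (T : F[X]), Irreducible T →
  ∃ (E : Type) (_ : NontriviallyNormedField E) (_ : IsUltrametricDist E) (_ : ProperSpace E)
    (_ : CharZero E) (_ : NormedAlgebra F E) (t : E), FiniteDimensional F E ∧
    Module.finrank F E = T.natDegree ∧ aeval t T = 0 ∧ Algebra.adjoin F {t} = ⊤

/-- G0c: monic polynomials close to an irreducible one are irreducible -/
def T_IRO : Prop := ∀ (F : Type) [NontriviallyNormedField F] [IsUltrametricDist F]
  [ProperSpace F] [CharZero F] (p : F[X]), p.Monic → Irreducible p → ∃ ε : ℝ, 0 < ε ∧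
  ∀ T : F[X], T.Monic → T.natDegree = p.natDegree → (∀ i, ‖(T - p).coeff i‖ < ε) →
    Irreducible T

/-- G1: the trace forms are locally constant -/
def T_LOC : Prop := ∀ (F : Type) [NontriviallyNormedField F] [IsUltrametricDist F]
  [ProperSpace F] [CharZero F] (A h : F[X]) (N : ℕ), A.Monic → IsCoprime A h →
  ∃ ε : ℝ, 0 < ε ∧ ∀ h' : F[X], h'.natDegree ≤ N → (∀ i, ‖(h' - h).coeff i‖ < ε) →
    IsCoprime A h' ∧ S A h' = S A h ∧ (Met (gm A h) → Met (gm A h')) ∧
      (Anis (gm A h) → Anis (gm A h'))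

/-- G2: near a ramified factor, both values; the factor `p` divides `R₁` -/
def T_NRP : Prop := ∀ (F : Type) [NontriviallyNormedField F] [IsUltrametricDist F]
  [ProperSpace F] [CharZero F] (R R' P M p : F[X]) (x : WG F), R.Monic → R'.Monic → P.Monic →
  (R * R').Separable → IsCoprime (R * R') M → P ≠ 0 → p.Monic → Irreducible p → p ∣ R →
  ¬ SqM p M → I2 x →
  ∃ T : F[X], T.Monic ∧ Irreducible T ∧ T.natDegree = p.natDegree ∧ IsCoprime T P ∧
    IsCoprime T (R * R') ∧ sy R M T = x ∧ sy R' M T = sy R' M p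

/-- G3: rational points: there are nearby ones off a finite set with value a nonzero square -/
def T_PTB : Prop := ∀ (F : Type) [NontriviallyNormedField F] [IsUltrametricDist F]
  [ProperSpace F] [CharZero F] (m : F) (M0 : F[X]), m ≠ 0 → M0.Monic → M0.Separable →
  M0.natDegree = 4 →
  (∀ (t : F) (ε : ℝ), 0 < ε → IsSquare (m * eval t M0) → ∀ Z : Finset F,
    ∃ t' : F, t' ∉ Z ∧ ‖t' - t‖ < ε ∧ m * eval t' M0 ≠ 0 ∧ IsSquare (m * eval t' M0)) ∧
  (IsSquare m → ∀ (B : ℝ), ∃ t : F, B < ‖t‖ ∧ m * eval t M0 ≠ 0 ∧ IsSquare (m * eval t M0))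

/-- G4: symbols near infinity -/
def T_LIN : Prop := ∀ (F : Type) [NontriviallyNormedField F] [IsUltrametricDist F]
  [ProperSpace F] [CharZero F] (R M : F[X]), R.Monic → R.Separable → IsCoprime R M →
  IsSquare (nn R M) → ∃ B : ℝ, ∀ t : F, B < ‖t‖ → eval t R ≠ 0 ∧ sy R M (X - C t) = 0

/-- G5: forms near infinity -/
def T_FIN : Prop := ∀ (F : Type) [NontriviallyNormedField F] [IsUltrametricDist F]
  [ProperSpace F] [CharZero F] (A h : F[X]), A.Monic → IsCoprime A h →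
  ∃ B : ℝ, ∀ t : F, B < ‖t‖ → IsCoprime A (h * (X - C t)) ∧
    (Met (gm A h) → Met (gm A (h * (X - C t)))) ∧ (Anis (gm A h) → Anis (gm A (h * (X - C t))))

/-- G6: from an anisotropic to a hyperbolic member of the pencil -/
def T_FWD : Prop := ∀ (F : Type) [NontriviallyNormedField F] [IsUltrametricDist F]
  [ProperSpace F] [CharZero F] (M0 h : F[X]) (t0 : F), M0.Monic → M0.Separable →
  M0.natDegree = 4 → IsCoprime M0 h → eval t0 M0 ≠ 0 → Anis (gm M0 (h * (X - C t0))) →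
  ∀ Z : Finset F, ∃ t : F, t ∉ Z ∧ eval t M0 ≠ 0 ∧ Met (gm M0 (h * (X - C t))) ∧
    IsSquare (eval t M0 * eval t0 M0)

/-- no common zero of the pencil `h (α + β X)` modulo `M₀` -/
def NCZ {F : Type} [Field F] (M0 h : F[X]) : Prop :=
  ∀ z : F[X], z.natDegree < 4 → Pool.Agent.H34.N6.lam M0 (h * z ^ 2) = 0 →
    Pool.Agent.H34.N6.lam M0 (h * z ^ 2 * X) = 0 → z = 0

/-- G7: finitely many square classes modulo `M₀` and nondegeneracy: an element which is not in
a subgroup containing the constants and the squares is detected by a symbol -/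
def T_DUA : Prop := ∀ (F : Type) [Field F] [CharZero F], LA F → ∀ (M0 k : F[X])
  (B : Set F[X]), M0.Monic → M0.Separable → IsCoprime M0 k →
  (∀ b ∈ B, IsCoprime M0 b) → (∀ c : F, c ≠ 0 → C c ∈ B) →
  (∀ b ∈ B, ∀ b' ∈ B, b * b' ∈ B) →
  (∀ b b' z : F[X], b ∈ B → IsCoprime M0 b' → M0 ∣ b' - b * z ^ 2 → b' ∈ B) → k ∉ B →
  ∃ k' : F[X], IsCoprime M0 k' ∧ IsSquare (nn M0 k') ∧ (∀ b ∈ B, sy M0 b k' = 0) ∧
    sy M0 k k' ≠ 0

/-- the classes of the pairs of rational points `t`, `t₀` -/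
def PB {F : Type} [Field F] (M0 : F[X]) (t0 : F) : Set F[X] :=
  {b | IsCoprime M0 b ∧ ∃ (c t : F) (z : F[X]), c ≠ 0 ∧ t ≠ t0 ∧ eval t M0 ≠ 0 ∧
    IsSquare (eval t M0 * eval t0 M0) ∧ M0 ∣ b - C c * ((X - C t) * (X - C t0)) * z ^ 2}

/-- G8: the subgroup of the rational points -/
def T_SUB : Prop := ∀ (F : Type) [NontriviallyNormedField F] [IsUltrametricDist F]
  [ProperSpace F] [CharZero F] (M0 : F[X]) (t0 : F), M0.Monic → M0.Separable →
  M0.natDegree = 4 → eval t0 M0 ≠ 0 →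
  (∀ c : F, c ≠ 0 → C c ∈ PB M0 t0) ∧
  (∀ b ∈ PB M0 t0, ∀ b' ∈ PB M0 t0, b * b' ∈ PB M0 t0) ∧
  ∀ b b' z : F[X], b ∈ PB M0 t0 → IsCoprime M0 b' → M0 ∣ b' - b * z ^ 2 → b' ∈ PB M0 t0

/-- G9: from a hyperbolic to an anisotropic member of a pencil without common zero -/
def T_REV : Prop := ∀ (F : Type) [NontriviallyNormedField F] [IsUltrametricDist F]
  [ProperSpace F] [CharZero F] (M0 h : F[X]) (t0 : F), M0.Monic → M0.Separable →
  M0.natDegree = 4 → IsCoprime M0 h → eval t0 M0 ≠ 0 → IsSquare (nn M0 (h * (X - C t0))) →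
  NCZ M0 h → ∀ Z : Finset F, ∃ t : F, t ∉ Z ∧ eval t M0 ≠ 0 ∧ Anis (gm M0 (h * (X - C t))) ∧
    IsSquare (eval t M0 * eval t0 M0)

/-- G10: a quartic which represents the class -/
def T_MEX : Prop := ∀ (F : Type) [NontriviallyNormedField F] [IsUltrametricDist F]
  [ProperSpace F] [CharZero F] (P D : F[X]), P.Monic → P.natDegree = 7 → P.Separable →
  IsCoprime P D → Pool.Agent.H34.N6.CZ (Pool.Agent.H34.N6.gA P D 0) (Pool.Agent.H34.N6.gA P D 1) →
  ∃ (m : F) (M0 z : F[X]), m ≠ 0 ∧ M0.Monic ∧ M0.natDegree = 4 ∧ M0.Separable ∧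
    IsCoprime P M0 ∧ IsCoprime P z ∧ P ∣ C m * M0 - D * z ^ 2

end Pool.Agent.H63.WT
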