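import Pool.Agent.H63.WT.TB

/-!
# The relaxed local lemma: targets, assembly
-/

set_option autoImplicit false

open Polynomial Matrix Pool.Agent.H32.QC

namespace Pool.Agent.H63.WT

/-- the local data: `M = m M₀` a quartic, `P₁ = R₁ U₁` the even part, `P₂ = R₂ U₂` the odd part,
`M` is a square modulo `U₁`, `U₂` and no square modulo the factors of `R₁`, `R₂` -/
structure Dt {F : Type} [Field F] (m : F) (M0 P1 P2 R1 R2 U1 U2 : F[X]) : Prop where
  m0 : m ≠ 0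
  mon0 : M0.Monic
  sep0 : M0.Separable
  deg0 : M0.natDegree = 4
  mon1 : P1.Monic
  mon2 : P2.Monic
  monR1 : R1.Monic
  monR2 : R2.Monic
  monU1 : U1.Monic
  monU2 : U2.Monic
  fac1 : P1 = R1 * U1
  fac2 : P2 = R2 * U2
  sep : (P1 * P2).Separable
  cop : IsCoprime (P1 * P2) M0
  even1 : Even P1.natDegree
  odd2 : Odd P2.natDegree
  sq1 : SqM U1 (C m * M0)
  sq2 : SqM U2 (C m * M0)
  ram1 : ∀ p : F[X], Irreducible p → p ∣ R1 → ¬ SqM p (C m * M0)
  ram2 : ∀ p : F[X], Irreducible p → p ∣ R2 → ¬ SqM p (C m * M0)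
  nn1 : IsSquare (nn P1 (C m * M0))
  nn2 : IsSquare (nn P2 (C m * M0))

/-- the failure of the relaxed local lemma -/
def Fail {F : Type} [Field F] (M P1 P2 R1 R2 : F[X]) : Prop :=
  ∀ T : F[X], T.Monic → Irreducible T → IsCoprime T (P1 * P2) →
    (Odd T.natDegree → ¬ (cc P1 P2 R1 M T = 0 ∧ cc P2 P1 R2 M T = 0)) ∧
    (Even T.natDegree → ¬ (cc P1 P2 R1 M T ≠ 0 ∧ cc P2 P1 R2 M T ≠ 0))

/-! ### H: first consequences -/

/-- H1: existence of the data -/
def T_DTE : Prop := ∀ (F : Type) [NontriviallyNormedField F] [IsUltrametricDist F]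
  [ProperSpace F] [CharZero F] (P1 P2 D : F[X]), P1.Monic → P2.Monic → (P1 * P2).Separable →
  P1.natDegree + P2.natDegree = 7 → Even P1.natDegree → IsCoprime (P1 * P2) D →
  IsSquare (P1.resultant D) → IsSquare (P2.resultant D) →
  Pool.Agent.H34.N6.CZ (Pool.Agent.H34.N6.gA (P1 * P2) D 0) (Pool.Agent.H34.N6.gA (P1 * P2) D 1) →
  ∃ (m : F) (M0 R1 R2 U1 U2 z : F[X]), Dt m M0 P1 P2 R1 R2 U1 U2 ∧ IsCoprime (P1 * P2) z ∧
    P1 * P2 ∣ C m * M0 - D * z ^ 2

/-- H2: the values, one part (`A = R U`) -/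
def T_CAD : Prop := ∀ (F : Type) [Field F] [CharZero F], LA F → ∀ (A B R U M : F[X]), A.Monic →
  B.Monic → R.Monic → U.Monic → A = R * U → (A * B).Separable → IsCoprime (A * B) M → SqM U M →
  IsSquare (nn A M) → IsSquare (nn R M) ∧ (∀ T : F[X], IsCoprime R T → I2 (cc A B R M T)) ∧
  (∀ T T' : F[X], T.Monic → T'.Monic → IsCoprime R T → IsCoprime R T' →
    cc A B R M (T * T') = cc A B R M T + cc A B R M T') ∧
  ∀ T : F[X], IsCoprime A T → sy A M T = sy R M T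

/-- H3: values at linear polynomials are locally constant, near infinity they are `q` -/
def T_CLC : Prop := ∀ (F : Type) [NontriviallyNormedField F] [IsUltrametricDist F]
  [ProperSpace F] [CharZero F] (A B R M : F[X]), R.Monic → R.Separable → IsCoprime R M →
  IsSquare (nn R M) →
  (∀ t : F, eval t R ≠ 0 → ∃ ε : ℝ, 0 < ε ∧ ∀ t' : F, ‖t' - t‖ < ε → eval t' R ≠ 0 ∧
    cc A B R M (X - C t') = cc A B R M (X - C t)) ∧
  ∃ b : ℝ, ∀ t : F, b < ‖t‖ → eval t R ≠ 0 ∧ cc A B R M (X - C t) = qc A B M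

/-- H4: the factors modulo which `M` is no square -/
def T_RMV : Prop := ∀ (F : Type) [NontriviallyNormedField F] [IsUltrametricDist F]
  [ProperSpace F] [CharZero F] (m : F) (M0 P1 P2 R1 R2 U1 U2 : F[X]),
  Dt m M0 P1 P2 R1 R2 U1 U2 → Fail (C m * M0) P1 P2 R1 R2 → ∀ p : F[X], p.Monic →
  Irreducible p →
  (p ∣ R1 → (Odd p.natDegree → cc P2 P1 R2 (C m * M0) p ≠ 0) ∧
    (Even p.natDegree → cc P2 P1 R2 (C m * M0) p = 0)) ∧
  (p ∣ R2 → (Odd p.natDegree → cc P1 P2 R1 (C m * M0) p ≠ 0) ∧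
    (Even p.natDegree → cc P1 P2 R1 (C m * M0) p = 0))

/-- H5: linear polynomials: the failure also at unramified points and branch points -/
def T_FLN : Prop := ∀ (F : Type) [NontriviallyNormedField F] [IsUltrametricDist F]
  [ProperSpace F] [CharZero F] (m : F) (M0 P1 P2 R1 R2 U1 U2 : F[X]),
  Dt m M0 P1 P2 R1 R2 U1 U2 → Fail (C m * M0) P1 P2 R1 R2 → ∀ t : F,
  IsSquare (m * eval t M0) → eval t R1 ≠ 0 ∧ eval t R2 ≠ 0 ∧
  ¬ (cc P1 P2 R1 (C m * M0) (X - C t) = 0 ∧ cc P2 P1 R2 (C m * M0) (X - C t) = 0)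

/-- H6: a rational point with `c₁ + c₂ = 0` -/
def T_SUM : Prop := ∀ (F : Type) [NontriviallyNormedField F] [IsUltrametricDist F]
  [ProperSpace F] [CharZero F] (m : F) (M0 P1 P2 R1 R2 U1 U2 : F[X]),
  Dt m M0 P1 P2 R1 R2 U1 U2 → (∃ t : F, IsSquare (m * eval t M0)) → ∀ Z : Finset F,
  ∃ t : F, t ∉ Z ∧ eval t M0 ≠ 0 ∧ eval t (P1 * P2) ≠ 0 ∧ IsSquare (m * eval t M0) ∧
    cc P1 P2 R1 (C m * M0) (X - C t) + cc P2 P1 R2 (C m * M0) (X - C t) = 0

/-- H7: index one: one of the two classes is constant -/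
def T_ALT : Prop := ∀ (F : Type) [NontriviallyNormedField F] [IsUltrametricDist F]
  [ProperSpace F] [CharZero F] (m : F) (M0 P1 P2 R1 R2 U1 U2 : F[X]),
  Dt m M0 P1 P2 R1 R2 U1 U2 → Fail (C m * M0) P1 P2 R1 R2 →
  (∃ t : F, IsSquare (m * eval t M0)) →
  (∀ t : F, IsSquare (m * eval t M0) → cc P1 P2 R1 (C m * M0) (X - C t) ≠ 0) ∨
    ∀ t : F, IsSquare (m * eval t M0) → cc P2 P1 R2 (C m * M0) (X - C t) ≠ 0

/-- H8: a constant class, all divisors -/
def T_DIV : Prop := ∀ (F : Type) [NontriviallyNormedField F] [IsUltrametricDist F]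
  [ProperSpace F] [CharZero F] (m : F) (M0 A B R U : F[X]), m ≠ 0 → M0.Monic → M0.Separable →
  M0.natDegree = 4 → A.Monic → B.Monic → R.Monic → U.Monic → A = R * U → (A * B).Separable →
  IsCoprime (A * B) M0 → SqM U (C m * M0) → IsSquare (nn A (C m * M0)) →
  (∀ p : F[X], Irreducible p → p ∣ R → ¬ SqM p (C m * M0)) →
  (∃ t : F, IsSquare (m * eval t M0)) →
  (∀ t : F, IsSquare (m * eval t M0) → cc A B R (C m * M0) (X - C t) ≠ 0) →
  ∀ T : F[X], T.Monic → SqM T (C m * M0) → IsCoprime R T ∧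
    (Odd T.natDegree → cc A B R (C m * M0) T ≠ 0) ∧
    (Even T.natDegree → cc A B R (C m * M0) T = 0)

/-- H9: index one, the class of the odd part is not constant -/
def T_IOD : Prop := ∀ (F : Type) [NontriviallyNormedField F] [IsUltrametricDist F]
  [ProperSpace F] [CharZero F] (m : F) (M0 P1 P2 R1 R2 U1 U2 : F[X]),
  Dt m M0 P1 P2 R1 R2 U1 U2 → Fail (C m * M0) P1 P2 R1 R2 →
  (∃ t : F, IsSquare (m * eval t M0)) →
  ¬ ∀ t : F, IsSquare (m * eval t M0) → cc P2 P1 R2 (C m * M0) (X - C t) ≠ 0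

/-- H10: index one, the class of the even part is not constant -/
def T_IEV : Prop := ∀ (F : Type) [NontriviallyNormedField F] [IsUltrametricDist F]
  [ProperSpace F] [CharZero F] (m : F) (M0 P1 P2 R1 R2 U1 U2 : F[X]),
  Dt m M0 P1 P2 R1 R2 U1 U2 → Fail (C m * M0) P1 P2 R1 R2 →
  (∃ t : F, IsSquare (m * eval t M0)) →
  ¬ ∀ t : F, IsSquare (m * eval t M0) → cc P1 P2 R1 (C m * M0) (X - C t) ≠ 0

/-- H11: there are no rational points -/
def T_IX1 : Prop := ∀ (F : Type) [NontriviallyNormedField F] [IsUltrametricDist F]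
  [ProperSpace F] [CharZero F] (m : F) (M0 P1 P2 R1 R2 U1 U2 : F[X]),
  Dt m M0 P1 P2 R1 R2 U1 U2 → Fail (C m * M0) P1 P2 R1 R2 →
  ¬ IsSquare m ∧ ∀ t : F, ¬ IsSquare (m * eval t M0)

/-! ### K: index two -/

/-- K1: the line trick: no common zero over quadratic extensions -/
def T_LNE : Prop := ∀ (F E : Type) [Field F] [Field E] [Algebra F E], (2 : F) ≠ 0 →
  Module.finrank F E = 2 → ∀ (m : F) (M0 Q : F[X]), m ≠ 0 → M0.Monic → M0.Separable →
  M0.natDegree = 4 → IsCoprime M0 Q → IsSquare (m * nn M0 Q) → ¬ IsSquare m →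
  (∀ t : F, ¬ IsSquare (m * eval t M0)) →
  NCZ (M0.map (algebraMap F E)) (Q.map (algebraMap F E))

/-- K2: the classes over the quadratic extension (field `E`; everything is over `E`) -/
def T_E42 : Prop := ∀ (E : Type) [NontriviallyNormedField E] [IsUltrametricDist E]
  [ProperSpace E] [CharZero E] (m : E) (M0 P1 P2 : E[X]), m ≠ 0 → M0.Monic → M0.Separable →
  M0.natDegree = 4 → P1.Monic → P2.Monic → (P1 * P2).Separable → IsCoprime (P1 * P2) M0 →
  Odd P2.natDegree → Odd (P1 * P2).natDegree → IsSquare (nn P1 (C m * M0)) →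
  IsSquare (nn P2 (C m * M0)) → NCZ M0 P2 → on 1 - on m + G m M0 P2 = 0 →
  on 1 - on m + G m M0 (P1 * P2) = 0 →
  (∀ t : E, eval t (P1 * P2) ≠ 0 → ¬ (sy P1 (C m * M0) (X - C t) ≠ 0 ∧
    sy P2 (C m * M0) (X - C t) ≠ 0)) →
  ∀ t : E, eval t (P1 * P2) ≠ 0 → eval t M0 ≠ 0 → IsSquare (m * eval t M0) →
    sy P1 (C m * M0) (X - C t) = 0

/-- K3: base change of trace forms -/
def T_BCS : Prop := ∀ (F E : Type) [Field F] [Field E] [Algebra F E], (2 : F) ≠ 0 →
  ∀ f : WG F →+ WG E, (∀ (ι : Type) [Fintype ι] [DecidableEq ι] (A : Matrix ι ι F), SN A →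
    f (cls A) = cls (A.map (algebraMap F E))) → ∀ A h : F[X], A.Monic → IsCoprime A h →
  f (S A h) = S (A.map (algebraMap F E)) (h.map (algebraMap F E))

/-- K4: the norm formula for transfers (`T` irreducible, `E = F(t)`): Euler over `F[X]/A` -/
def T_NFT : Prop := ∀ (F E : Type) [Field F] [Field E] [Algebra F E], (2 : F) ≠ 0 →
  ∀ (T : F[X]) (t : E), T.Monic → Irreducible T → aeval t T = 0 → Algebra.adjoin F {t} = ⊤ →
  ∃ (b : Module.Basis (Fin T.natDegree) F E) (s : E →ₗ[F] F), s ≠ 0 ∧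
    (∀ i, b i = t ^ (i : ℕ)) ∧ (∀ i : Fin T.natDegree, s (t ^ (i : ℕ)) =
      if (i : ℕ) + 1 = T.natDegree then 1 else 0) ∧
    ∀ f : WG E →+ WG F, IsTr s b f → ∀ A h : F[X], A.Monic → IsCoprime A T → IsCoprime A h →
      f (S (A.map (algebraMap F E)) (h.map (algebraMap F E) * (X - C t)) -
          S (A.map (algebraMap F E)) (X - C t)) =
        if Odd T.natDegree then S A (h * T) - S A T else sy A h T

/-- K5: projection formula for quadratic extensions -/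
def T_PRJ : Prop := ∀ (F E : Type) [Field F] [CharZero F] [Field E] [Algebra F E], LA F →
  Module.finrank F E = 2 → ∀ (T : F[X]) (t : E), T.Monic → T.natDegree = 2 → Irreducible T →
  aeval t T = 0 → ∀ A h : F[X], A.Monic → IsCoprime A T → IsCoprime A h → IsSquare (nn A h) →
  (sy A h T = 0 ↔ sy (A.map (algebraMap F E)) (h.map (algebraMap F E)) (X - C t) = 0)

/-- K6: index two: the class of the even part vanishes at the points over quadratic extensions -/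
def T_I2A' : Prop := ∀ (F E : Type) [NontriviallyNormedField F] [IsUltrametricDist F]
  [ProperSpace F] [CharZero F] [NontriviallyNormedField E] [IsUltrametricDist E]
  [ProperSpace E] [CharZero E] [NormedAlgebra F E], Module.finrank F E = 2 →
  ∀ (m : F) (M0 P1 P2 R1 R2 U1 U2 : F[X]),
  Dt m M0 P1 P2 R1 R2 U1 U2 → Fail (C m * M0) P1 P2 R1 R2 → ¬ IsSquare m →
  (∀ t : F, ¬ IsSquare (m * eval t M0)) → ∀ t : E,
  aeval t (P1 * P2) ≠ 0 → aeval t M0 ≠ 0 → IsSquare (algebraMap F E m * aeval t M0) →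
  sy (P1.map (algebraMap F E)) ((C m * M0).map (algebraMap F E)) (X - C t) = 0

/-- K7: index two: divisors of degree two -/
def T_I2B : Prop := ∀ (F : Type) [NontriviallyNormedField F] [IsUltrametricDist F]
  [ProperSpace F] [CharZero F] (m : F) (M0 P1 P2 R1 R2 U1 U2 : F[X]),
  Dt m M0 P1 P2 R1 R2 U1 U2 → Fail (C m * M0) P1 P2 R1 R2 → ¬ IsSquare m →
  (∀ t : F, ¬ IsSquare (m * eval t M0)) → ∀ T : F[X], T.Monic → T.natDegree = 2 →
  SqM T (C m * M0) → sy R1 (C m * M0) T = 0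

/-- K8: index two: all divisors -/
def T_I2C : Prop := ∀ (F : Type) [NontriviallyNormedField F] [IsUltrametricDist F]
  [ProperSpace F] [CharZero F] (m : F) (M0 P1 P2 R1 R2 U1 U2 : F[X]),
  Dt m M0 P1 P2 R1 R2 U1 U2 → Fail (C m * M0) P1 P2 R1 R2 → ¬ IsSquare m →
  (∀ t : F, ¬ IsSquare (m * eval t M0)) → ∀ T : F[X], T.Monic →
  SqM T (C m * M0) → Even T.natDegree ∧ sy R1 (C m * M0) T = 0

/-- K9: the lines: from a common zero over `F(√m)` to a divisor of degree two -/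
def T_LDV : Prop := ∀ (F E : Type) [Field F] [CharZero F] [Field E] [Algebra F E] (m : F)
  (s : E) (M0 k : F[X]), Module.finrank F E = 2 → s ^ 2 = algebraMap F E m → ¬ IsSquare m →
  M0.Monic → M0.Separable → M0.natDegree = 4 → IsCoprime M0 k → IsSquare (nn M0 k) →
  Anis (gm M0 k) → (∀ t : F, ¬ IsSquare (m * eval t M0)) →
  ¬ NCZ (M0.map (algebraMap F E)) (k.map (algebraMap F E)) → ∀ Q : F[X], IsCoprime Q M0 →
  Q.Monic →
  ∃ (T z : F[X]) (c t1 : F), T.Monic ∧ T.natDegree = 2 ∧ Irreducible T ∧ c ≠ 0 ∧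
    SqM T (C m * M0) ∧ IsCoprime T (Q * M0) ∧ eval t1 M0 ≠ 0 ∧ IsSquare (eval t1 M0) ∧
    IsCoprime M0 z ∧ M0 ∣ C c * T - k * (X - C t1) * z ^ 2

/-- K10: index two: the quaternary form of the even part is hyperbolic -/
def T_I2D' : Prop := ∀ (F : Type) [NontriviallyNormedField F] [IsUltrametricDist F]
  [ProperSpace F] [CharZero F] (m : F) (M0 P1 P2 R1 R2 U1 U2 : F[X]),
  Dt m M0 P1 P2 R1 R2 U1 U2 → Fail (C m * M0) P1 P2 R1 R2 → ¬ IsSquare m →
  (∀ t : F, ¬ IsSquare (m * eval t M0)) → G m M0 P1 = 0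

/-- K11: the relaxed local lemma -/
def T_LLP : Prop := ∀ (F : Type) [NontriviallyNormedField F] [IsUltrametricDist F]
  [ProperSpace F] [CharZero F] (m : F) (M0 P1 P2 R1 R2 U1 U2 : F[X]),
  Dt m M0 P1 P2 R1 R2 U1 U2 → ¬ Fail (C m * M0) P1 P2 R1 R2

/-- K12: an odd point with `c₁ + c₂ = 0` -/
def T_ODD : Prop := ∀ (F : Type) [NontriviallyNormedField F] [IsUltrametricDist F]
  [ProperSpace F] [CharZero F] (m : F) (M0 P1 P2 R1 R2 U1 U2 : F[X]),
  Dt m M0 P1 P2 R1 R2 U1 U2 → ∃ T : F[X], T.Monic ∧ Irreducible T ∧ Odd T.natDegree ∧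
    IsCoprime T (P1 * P2) ∧ cc P1 P2 R1 (C m * M0) T + cc P2 P1 R2 (C m * M0) T = 0

end Pool.Agent.H63.WT
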